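import Pool.Agent.helper58.DC.All
import Pool.Agent.helper49.DC.IRP2
import Pool.Agent.helper49.DC.IRC2

/-!
# One inequality suffices in Dade's invariant conjecture

`p` is a prime and `M` a maximal ideal of the ring of algebraic integers which contains `p`.
`Dade p M` is Dade's invariant conjecture for `p`. The theorem says that it is equivalent to one
inequality in a very special case: the alternating sum for `U = E / G` is at most `0` if `E / G` is
an alternating group of degree at least `m₀`, the block is `E`-stable and `d` is a multiple of `N`.
In other words: the number of `E`-invariant characters of defect `d` in the block is at most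
the locally determined number.
-/

set_option autoImplicit false

open Pool.Agent.helper58.DC

namespace Pool.Agent.Results.MP_baa4d7_al.OneInequality

theorem result (p : ℕ) [Fact p.Prime] (M : Ideal (integralClosure ℤ ℂ)) (_hM : M.IsMaximal)
    (_hp : (p : integralClosure ℤ ℂ) ∈ M) (N m₀ : ℕ) (hN : 1 ≤ N) :
    Dade p M ↔
      ∀ m ≥ m₀, ∀ (G E : Type) [Group G] [Group E] [Finite G] [Finite E]
        (X : Extension G E (alternatingGroup (Fin m))),
        IsOp p (⊤ : Subgroup G) ⊥ → ∀ χ ∈ Irr G, PosDefect p M χ →
        (∀ e : E, Induces M (funMap (X.act e) χ) χ) →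
        ∀ d : ℤ, (N : ℤ) ∣ d → altSum X p M χ d ⊤ ≤ 0 :=
  All.dFB Pool.Agent.helper49.DC.IRP2 Pool.Agent.helper49.DC.IRC2 p N m₀ hN M

end Pool.Agent.Results.MP_baa4d7_al.OneInequality
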